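import Mathlib.Data.Int.Star
import Mathlib.Algebra.Order.Ring.Star
import Mathlib.Analysis.CStarAlgebra.Classes
import Mathlib.Analysis.SpecialFunctions.Complex.CircleAddChar
import Mathlib.RingTheory.SimpleRing.Principal
import Mathlib.RingTheory.Henselian
import Mathlib.RingTheory.RegularLocalRing.Defs
import Mathlib.Tactic.Algebra.Basic

-- ======== part 0: formerly Pool.Agent.MP_e262d6_nt.Base
section MrgPart0

/-! Weil sums of binomials over a cubic extension: the translation method. -/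

set_option autoImplicit false

noncomputable section

namespace Pool.Agent.MP_e262d6_nt

open Finset

/-- an additive character invariant under an automorphism of order three -/
structure Ctx (L : Type) [Field L] [Fintype L] where
  χ : AddChar L ℂ
  σ : L →+* L
  cube : ∀ x, σ (σ (σ x)) = x
  inv : ∀ x, χ (σ x) = χ x
  ne : ∃ x, χ x ≠ 1
  mov : ∃ x, σ x ≠ x
  big : ∃ x, (x + σ x + σ (σ x)) ^ 3 ≠ x + σ x + σ (σ x)

variable {L : Type} [Field L] [Fintype L]

omit [Field L] in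
theorem sum_zero_of_shift (f : L → ℂ) (β : L → L) (hβ : Function.Injective β) {ζ : ℂ} (hζ : ζ ≠ 1)
    (h : ∀ y, f (β y) = f y * ζ) : ∑ y, f y = 0 := by
  have h1 : ∑ y, f (β y) = ∑ y, f y := (Finite.injective_iff_bijective.1 hβ).sum_comp f
  simp only [h, ← sum_mul] at h1
  have h2 : (∑ y, f y) * (ζ - 1) = 0 := by rw [mul_sub, h1, mul_one, sub_self]
  exact (mul_eq_zero.1 h2).resolve_right (sub_ne_zero.2 hζ)

namespace Ctx

variable (C : Ctx L)

/-- the relative trace -/
def T (x : L) : L := x + C.σ x + C.σ (C.σ x)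

theorem σT (x : L) : C.σ (C.T x) = C.T x := by
  simp only [T, map_add, C.cube]; ring

theorem exists_one : ∃ θ, C.T θ = 1 := by
  obtain ⟨x, hx⟩ := C.big
  have h : C.T x ≠ 0 := fun h => hx (by rw [show x + C.σ x + C.σ (C.σ x) = 0 from h]; simp)
  refine ⟨x / C.T x, ?_⟩
  have h1 := C.σT x
  have h2 : C.T (x / C.T x) = C.T x / C.T x := by
    conv_lhs => rw [T, map_div₀, h1, map_div₀, h1, ← add_div, ← add_div]
    rfl
  rw [h2, div_self h]

theorem chi_eq {x y : L} (h : C.T x = C.T y) : C.χ x = C.χ y := by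
  obtain ⟨θ, hθ⟩ := C.exists_one
  set b := (x - y) * C.σ θ + (x - y + C.σ (x - y)) * C.σ (C.σ θ) with hb
  have h1 : x + C.σ b = y + b := by
    simp only [hb, map_add, map_mul, map_sub, C.cube, T] at h hθ ⊢
    linear_combination θ * h - (x - y) * hθ
  have h2 := congrArg C.χ h1
  rw [AddChar.map_add_eq_mul, AddChar.map_add_eq_mul, C.inv] at h2
  exact mul_right_cancel₀ (AddChar.val_isUnit _ _).ne_zero h2

theorem exists_big : ∃ v, C.σ v = v ∧ v ≠ 0 ∧ 1 + v ≠ 0 ∧ v - 1 ≠ 0 := by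
  obtain ⟨x, hx⟩ := C.big
  have h : C.T x ^ 3 ≠ C.T x := hx
  refine ⟨C.T x, C.σT x, fun h0 => h ?_, fun h0 => h ?_, fun h0 => h ?_⟩
  · rw [h0]; simp
  · linear_combination (C.T x * (C.T x - 1)) * h0
  · linear_combination (C.T x * (C.T x + 1)) * h0

theorem chi_add {x y z : L} (h : C.T x = C.T y + C.T z) : C.χ x = C.χ y * C.χ z := by
  rw [← AddChar.map_add_eq_mul]
  apply C.chi_eq
  rw [h]
  simp only [T, map_add]; ring

/-- a form with a rational vertex is balanced -/
theorem vertex (Φ l : L → L) (c : L) (e : ℕ) (hc : c ≠ 0) (hσc : C.σ c = c)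
    (he : ∀ x y : L, C.σ x = x → C.σ y = y → x ^ e = y ^ e → x = y) (h1 : ∀ y, C.σ (l y) = l y)
    (h2 : ∀ y t, C.σ t = t → l (y + t) = l y + t)
    (h3 : ∀ y t, C.σ t = t → C.T (Φ (y + t)) = C.T (Φ y) + c * ((l y + t) ^ e - l y ^ e)) :
    ∑ y, C.χ (Φ y) = 0 := by
  obtain ⟨z, hz⟩ := C.ne
  have hb := ((Set.toFinite {x : L | C.σ x = x}).injOn_iff_bijOn_of_mapsTo (f := fun x => x ^ e)
    fun x hx => by simp only [Set.mem_ofPred_eq, map_pow] at hx ⊢; rw [hx]).1
    fun x hx y hy h => he x y hx hy h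
  have hex : ∀ y, ∃ ρ, C.σ ρ = ρ ∧ ρ ^ e = l y ^ e + C.T z / c := fun y =>
    hb.surjOn (show C.σ _ = _ by rw [map_add, map_pow, h1, map_div₀, C.σT, hσc])
  choose ρ hρ1 hρ2 using hex
  have hfix : ∀ y, C.σ (ρ y - l y) = ρ y - l y := fun y => by rw [map_sub, h1, hρ1]
  refine sum_zero_of_shift _ (fun y => y + (ρ y - l y)) (fun y y' h => ?_) hz fun y => ?_
  · have a0 := congrArg l h
    simp only [h2 _ _ (hfix _), add_sub_cancel] at a0
    have a1 := hρ2 y
    rw [a0, hρ2, add_left_inj] at a1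
    have a2 := he _ _ (h1 _) (h1 _) a1
    simpa [a0, a2] using h
  · apply C.chi_add
    rw [h3 _ _ (hfix y), add_sub_cancel, hρ2, add_sub_cancel_left, mul_div_cancel₀ _ hc]

/-- the variant in characteristic three -/
theorem three (h3 : (3 : L) = 0) (Φ : L → L) (ν κ : L) (hν : ν ≠ 0) (hκ : κ ≠ 0)
    (hσν : C.σ ν = ν) (hσκ : C.σ κ = κ)
    (h1 : ∀ y t, C.σ t = t → C.T (Φ (y + t)) = C.T (Φ y) + ν * C.T y ^ 2 * t)
    (h2 : ∀ y, C.T y = 0 → C.T (Φ y) = κ * (C.σ y - y) ^ 3) : ∑ y, C.χ (Φ y) = 0 := by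
  classical
  obtain ⟨z, hz⟩ := C.ne
  obtain ⟨θ, hθ⟩ := C.exists_one
  have hi : Function.Injective fun x : L => x ^ 3 := fun x y h => by
    have : (x - y) ^ 3 = 0 := by
      simp only at h
      linear_combination h + (x * y ^ 2 - x ^ 2 * y) * h3
    exact sub_eq_zero.1 (pow_eq_zero_iff (by norm_num) |>.1 this)
  obtain ⟨w, hw⟩ := Finite.injective_iff_surjective.1 hi (C.T z / κ)
  simp only at hw
  have hσw : C.σ w = w := hi (by simp only; rw [← map_pow, hw, map_div₀, C.σT, hσκ])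
  set d : L → L := fun y => if C.T y = 0 then w * (C.σ θ - θ) else C.T z / (ν * C.T y ^ 2) with hd
  have hfix : ∀ y, C.σ (C.T z / (ν * C.T y ^ 2)) = C.T z / (ν * C.T y ^ 2) := fun y => by
    rw [map_div₀, map_mul, map_pow, C.σT, C.σT, hσν]
  have hT : ∀ y, C.T (y + d y) = C.T y := fun y => by
    simp only [hd]
    split_ifs
    · simp only [T, map_add, map_mul, map_sub, hσw, C.cube]; ring
    · have a1 := hfix y
      generalize C.T z / (ν * C.T y ^ 2) = t at a1 ⊢
      simp only [T, map_add, a1]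
      linear_combination t * h3
  refine sum_zero_of_shift _ (fun y => y + d y) (fun y y' h => ?_) hz fun y => ?_
  · have a0 := congrArg C.T h
    simp only [hT] at a0
    have a1 : d y = d y' := by simp only [hd, a0]
    simpa [a1] using h
  · apply C.chi_add
    by_cases h : C.T y = 0
    · rw [h2 _ ((hT y).trans h), h2 _ h]
      have a1 : C.σ (y + d y) - (y + d y) = C.σ y - y + w := by
        simp only [hd, if_pos h]
        simp only [map_add, map_mul, map_sub, hσw, T] at hθ ⊢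
        linear_combination w * hθ - w * C.σ θ * h3
      rw [a1, ← mul_div_cancel₀ (C.T z) hκ, ← hw]
      linear_combination κ * ((C.σ y - y) ^ 2 * w + (C.σ y - y) * w ^ 2) * h3
    · simp only [hd, if_neg h]
      rw [h1 _ _ (hfix y), mul_div_cancel₀ _ (mul_ne_zero hν (pow_ne_zero 2 h))]

end Ctx

/-- the canonical additive character -/
def can (p : ℕ) [Fact p.Prime] (L : Type) [Field L] [Algebra (ZMod p) L] : AddChar L ℂ :=
  (ZMod.stdAddChar (N := p)).compAddMonoidHom (Algebra.trace (ZMod p) L).toAddMonoidHom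

omit [Fintype L] in
theorem can_apply (p : ℕ) [Fact p.Prime] [Algebra (ZMod p) L] (x : L) :
    can p L x = Complex.exp (2 * (Real.pi : ℂ) * Complex.I *
      ((Algebra.trace (ZMod p) L x).val : ℂ) / (p : ℂ)) := by
  have h := ZMod.stdAddChar_coe (N := p) ((Algebra.trace (ZMod p) L x).val : ℤ)
  simpa [can] using h

theorem exists_not_root {f : Polynomial L} (hf : f ≠ 0) (hd : f.natDegree < Fintype.card L) :
    ∃ x, f.eval x ≠ 0 := by
  by_contra h
  push Not at h
  exact hf (Polynomial.eq_zero_of_natDegree_lt_card_of_eval_eq_zero f Function.injective_id h hd)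

theorem exists_ctx (p : ℕ) [Fact p.Prime] [Algebra (ZMod p) L] (m : ℕ) (hr3 : 3 < p ^ m)
    (hL : Fintype.card L = (p ^ m) ^ 3) :
    ∃ C : Ctx L, C.χ = can p L ∧ ∀ x, C.σ x = x ^ p ^ m := by
  have hp : p.Prime := Fact.out
  have : CharP L p := charP_of_injective_algebraMap (algebraMap (ZMod p) L).injective p
  have hr : 1 < p ^ m := by omega
  set r := p ^ m with hrd
  have hσ : ∀ x : L, iterateFrobenius L p m x = x ^ r := fun x => iterateFrobenius_def ..
  have h2 : r < r * r := by nlinarith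
  have h3 : 3 * (r * r) < Fintype.card L := by rw [hL]; nlinarith
  refine ⟨⟨can p L, iterateFrobenius L p m, fun x => ?_, fun x => ?_, ?_, ?_, ?_⟩, rfl, hσ⟩
  · rw [hσ, hσ, hσ, ← pow_mul, ← pow_mul, show r * (r * r) = Fintype.card L by rw [hL]; ring,
      FiniteField.pow_card]
  · have h := Algebra.trace_eq_of_algEquiv
      (FiniteField.frobeniusAlgEquivOfAlgebraic (ZMod p) L ^ m) x
    rw [AlgEquiv.coe_pow, FiniteField.coe_frobeniusAlgEquivOfAlgebraic_iterate, ZMod.card] at h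
    rw [can_apply, can_apply, hσ, hrd, h]
  · obtain ⟨x, hx⟩ := Algebra.trace_surjective (ZMod p) L 1
    refine ⟨x, fun h => ?_⟩
    have h1 : ZMod.stdAddChar (N := p) 1 = ZMod.stdAddChar (N := p) 0 := by
      rw [AddChar.map_zero_eq_one, ← hx]; exact h
    exact one_ne_zero (ZMod.injective_stdAddChar h1)
  · obtain ⟨x, hx⟩ := exists_not_root (f := (Polynomial.X ^ r - Polynomial.X : Polynomial L))
      (FiniteField.X_pow_card_sub_X_ne_zero L hr)
      (by rw [FiniteField.X_pow_card_sub_X_natDegree_eq L hr]; omega)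
    exact ⟨x, by rw [hσ]; simpa [sub_eq_zero] using hx⟩
  · have hd : (Polynomial.X + Polynomial.X ^ r + Polynomial.X ^ (r * r) : Polynomial L).natDegree
        = r * r := by
      rw [Polynomial.natDegree_add_eq_right_of_natDegree_lt, Polynomial.natDegree_X_pow]
      rw [Polynomial.natDegree_add_eq_right_of_natDegree_lt] <;> simp [hr, h2]
    set f : Polynomial L := Polynomial.X + Polynomial.X ^ r + Polynomial.X ^ (r * r) with hf
    have hd3 : (f ^ 3 - f).natDegree = 3 * (r * r) := by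
      rw [Polynomial.natDegree_sub_eq_left_of_natDegree_lt] <;>
        rw [Polynomial.natDegree_pow, hd]
      omega
    obtain ⟨x, hx⟩ := exists_not_root (f := f ^ 3 - f)
      (fun h => by rw [h, Polynomial.natDegree_zero] at hd3; omega) (by rw [hd3]; exact h3)
    exact ⟨x, by rw [hσ, hσ, ← pow_mul]; simpa [hf, sub_eq_zero] using hx⟩

theorem pow_inj {e : ℕ} (he : Nat.Coprime e (Fintype.card L - 1)) (h0 : e ≠ 0) :
    Function.Injective fun x : L => x ^ e := by
  classical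
  intro x y h
  simp only at h
  rcases eq_or_ne y 0 with rfl | hy
  · rw [zero_pow h0] at h
    exact pow_eq_zero_iff h0 |>.1 h
  have hx : x ≠ 0 := fun hx => by
    rw [hx, zero_pow h0] at h
    exact pow_ne_zero e hy h.symm
  have h1 : Nat.Coprime (Nat.card Lˣ) e := by
    rw [Nat.card_eq_fintype_card, Fintype.card_units]; exact he.symm
  have h2 := (powCoprime h1).injective (a₁ := Units.mk0 x hx) (a₂ := Units.mk0 y hy)
    (Units.ext (by simpa using h))
  simpa using congrArg Units.val h2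

theorem pow_congr {a b : ℕ} (h : a ≡ b [MOD Fintype.card L - 1]) (ha : a ≠ 0) (hb : b ≠ 0)
    (x : L) : x ^ a = x ^ b := by
  rcases eq_or_ne x 0 with rfl | hx
  · rw [zero_pow ha, zero_pow hb]
  · exact pow_eq_pow_of_modEq h (FiniteField.pow_card_sub_one_eq_one x hx)

/-- from a balanced binomial to a zero of the spectrum -/
theorem to_spec (χ : AddChar L ℂ) {s A B : ℕ} (hs : Nat.Coprime s (Fintype.card L - 1))
    (hB : Nat.Coprime B (Fintype.card L - 1)) (h : s * B ≡ A [MOD Fintype.card L - 1])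
    (hs0 : s ≠ 0) (hA0 : A ≠ 0) (hB0 : B ≠ 0) {u v : L} (hu : u ≠ 0) (hv : v ≠ 0)
    (h0 : ∑ y, χ (u * y ^ A + v * y ^ B) = 0) : ∃ a : L, a ≠ 0 ∧ ∑ x, χ (a * x + x ^ s) = 0 := by
  obtain ⟨w, hw⟩ := Finite.injective_iff_surjective.1 (pow_inj hs hs0) u
  simp only at hw
  have hw0 : w ≠ 0 := fun h => hu (by rw [← hw, h, zero_pow hs0])
  refine ⟨v / w, div_ne_zero hv hw0, ?_⟩
  have hb : Function.Bijective fun y : L => w * y ^ B :=
    Finite.injective_iff_bijective.1 fun y y' h => pow_inj hB hB0 (mul_left_cancel₀ hw0 h)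
  rw [← hb.sum_comp fun x => χ (v / w * x + x ^ s), ← h0]
  refine sum_congr rfl fun y _ => congrArg χ ?_
  rw [mul_pow, hw, ← pow_mul, mul_comm B s, pow_congr h (mul_ne_zero hs0 hB0) hA0]
  field_simp
  ring

end Pool.Agent.MP_e262d6_nt

end
end MrgPart0

-- ======== part 1: formerly Pool.Agent.MP_e262d6_nt.Cubic
section MrgPart1

/-! Binomials made of two cubic monomials. -/

set_option autoImplicit false

noncomputable section

namespace Pool.Agent.MP_e262d6_nt.Ctx

open Finset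

variable {L : Type} [Field L] [Fintype L] (C : Ctx L)

/-- the same data with the inverse automorphism -/
def rev : Ctx L where
  χ := C.χ
  σ := C.σ.comp C.σ
  cube x := by simp [C.cube]
  inv x := by simp [C.inv]
  ne := C.ne
  mov := by
    obtain ⟨x, hx⟩ := C.mov
    refine ⟨x, fun h => hx ?_⟩
    have h1 := congrArg C.σ h
    simp only [RingHom.comp_apply, C.cube] at h1
    exact h1.symm
  big := by
    obtain ⟨x, hx⟩ := C.big
    refine ⟨x, ?_⟩
    simp only [RingHom.comp_apply, C.cube]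
    rwa [add_right_comm]

/-- cubing is injective on the fixed field -/
def Cub : Prop := ∀ x y : L, C.σ x = x → C.σ y = y → x ^ 3 = y ^ 3 → x = y

theorem pairTP (h : C.Cub) : ∃ u v : L, u ≠ 0 ∧ v ≠ 0 ∧
    ∑ y, C.χ (u * (y ^ 2 * y) + v * (y ^ 2 * C.σ y)) = 0 := by
  by_cases h3 : (3 : L) = 0
  · refine ⟨1, 1, one_ne_zero, one_ne_zero, C.three h3 _ 1 (-1) one_ne_zero (by simp) (by simp)
      (by simp) (fun y t ht => ?_) fun y hy => ?_⟩
    · simp only [T, map_add, map_mul, map_pow, map_one, ht, C.cube]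
      linear_combination (t * (y ^ 2 + C.σ y ^ 2 + C.σ (C.σ y) ^ 2) +
        2 * t ^ 2 * (y + C.σ y + C.σ (C.σ y)) + 2 * t ^ 3) * h3
    · have h1 : C.σ (C.σ y) = -y - C.σ y := by simp only [T] at hy; linear_combination hy
      simp only [T, map_add, map_mul, map_pow, map_one, C.cube]
      rw [h1]
      linear_combination (y ^ 2 * C.σ y - 2 * y * C.σ y ^ 2) * h3
  · obtain ⟨w, hw, hT⟩ : ∃ w, C.σ w ≠ w ∧ C.T w ≠ 0 := by
      obtain ⟨x, hx⟩ := C.mov
      by_cases h0 : C.T x = 0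
      · refine ⟨x + 1, by simpa using hx, fun h1 => h3 ?_⟩
        simp only [T, map_add, map_one] at h0 h1
        linear_combination h1 - h0
      · exact ⟨x, hx, h0⟩
    have hw0 : w ≠ 0 := fun h0 => hw (by simp [h0])
    have hσ0 : C.σ w ≠ 0 := (map_ne_zero _).2 hw0
    refine ⟨w * (w - C.σ w), 3 * (w * C.σ w), mul_ne_zero hw0 (sub_ne_zero.2 hw.symm),
      mul_ne_zero h3 (mul_ne_zero hw0 hσ0), C.vertex _ (fun y => C.T (w * y) / C.T w)
      (C.T w ^ 2) 3 (pow_ne_zero 2 hT) (by rw [map_pow, C.σT]) h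
      (fun y => by rw [map_div₀, C.σT, C.σT]) (fun y t ht => ?_) fun y t ht => ?_⟩
    · rw [div_add' _ _ _ hT]
      congr 1
      simp only [T, map_add, map_mul, ht]; ring
    · have e1 : C.T w ^ 2 * ((C.T (w * y) / C.T w + t) ^ 3 - (C.T (w * y) / C.T w) ^ 3) =
          3 * C.T (w * y) ^ 2 * t + 3 * C.T (w * y) * C.T w * t ^ 2 + C.T w ^ 2 * t ^ 3 := by
        field_simp; ring
      rw [e1]
      simp only [T, map_add, map_mul, map_pow, map_sub, map_ofNat, ht, C.cube]
      ring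

theorem pairPM (h : C.Cub) : ∃ u v : L, u ≠ 0 ∧ v ≠ 0 ∧
    ∑ y, C.χ (u * (y ^ 2 * C.σ y) + v * (y ^ 2 * C.σ (C.σ y))) = 0 := by
  obtain ⟨v, hv, h0, h1, h2⟩ := C.exists_big
  refine ⟨1, v, one_ne_zero, h0, ?_⟩
  by_cases h3 : (3 : L) = 0
  · refine C.three h3 _ (1 + v) (v - 1) h1 h2 (by simp [hv]) (by simp [hv])
      (fun y t ht => ?_) fun y hy => ?_
    · simp only [T, map_add, map_mul, map_pow, map_one, ht, hv, C.cube]
      linear_combination (1 + v) * (t ^ 2 * (y + C.σ y + C.σ (C.σ y)) + t ^ 3) * h3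
    · have h1 : C.σ (C.σ y) = -y - C.σ y := by simp only [T] at hy; linear_combination hy
      simp only [T, map_add, map_mul, map_pow, map_one, hv, C.cube]
      rw [h1]
      linear_combination (2 * y ^ 2 * C.σ y - y * C.σ y ^ 2 +
        v * (2 * y * C.σ y ^ 2 - y ^ 2 * C.σ y)) * h3
  · refine C.vertex _ (fun y => C.T y / 3) (3 * (1 + v)) 3 (mul_ne_zero h3 h1)
      (by simp [hv, map_ofNat]) h (fun y => by rw [map_div₀, C.σT, map_ofNat])
      (fun y t ht => ?_) fun y t ht => ?_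
    · rw [div_add' _ _ _ h3]
      congr 1
      simp only [T, map_add, ht]; ring
    · have e1 : 3 * (1 + v) * ((C.T y / 3 + t) ^ 3 - (C.T y / 3) ^ 3) =
          (1 + v) * (C.T y ^ 2 * t + 3 * C.T y * t ^ 2 + 3 * t ^ 3) := by
        field_simp; ring
      rw [e1]
      simp only [T, map_add, map_mul, map_pow, map_one, ht, hv, C.cube]
      ring

theorem pairEq {f : L → L} (hf : Function.Injective f) : ∃ u v : L, u ≠ 0 ∧ v ≠ 0 ∧
    ∑ y, C.χ (u * f y + v * f y) = 0 := by
  obtain ⟨v, -, h0, h1, -⟩ := C.exists_big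
  obtain ⟨z, hz⟩ := C.ne
  refine ⟨1, v, one_ne_zero, h0, ?_⟩
  have hb : Function.Bijective fun y => 1 * f y + v * f y :=
    Finite.injective_iff_bijective.1 fun x y h => hf (mul_left_cancel₀ h1 (by linear_combination h))
  rw [hb.sum_comp fun x => C.χ x]
  exact sum_zero_of_shift _ (fun y => y + z) (add_left_injective z) hz
    fun y => AddChar.map_add_eq_mul _ _ _

theorem pair {c c' : ℕ} (hc : c < 3) (hc' : c' < 3)
    (hi : Function.Injective fun y : L => y ^ 2 * C.σ^[c] y) : ∃ u v : L, u ≠ 0 ∧ v ≠ 0 ∧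
      ∑ y, C.χ (u * (y ^ 2 * C.σ^[c] y) + v * (y ^ 2 * C.σ^[c'] y)) = 0 := by
  have h : C.Cub := fun x y hx hy hxy => hi (by
    simp only [Function.iterate_fixed hx, Function.iterate_fixed hy]
    linear_combination hxy)
  have h' : C.rev.Cub := fun x y hx hy => h x y
    (by have := congrArg C.σ hx; simpa [rev, C.cube] using this.symm)
    (by have := congrArg C.σ hy; simpa [rev, C.cube] using this.symm)
  have sw : ∀ f g : L → L, (∃ u v : L, u ≠ 0 ∧ v ≠ 0 ∧ ∑ y, C.χ (u * f y + v * g y) = 0) →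
      ∃ u v : L, u ≠ 0 ∧ v ≠ 0 ∧ ∑ y, C.χ (u * g y + v * f y) = 0 :=
    fun f g ⟨u, v, hu, hv, h0⟩ => ⟨v, u, hv, hu, by simpa only [add_comm] using h0⟩
  interval_cases c <;> interval_cases c'
  · exact C.pairEq hi
  · exact C.pairTP h
  · exact C.rev.pairTP h'
  · exact sw _ _ (C.pairTP h)
  · exact C.pairEq hi
  · exact C.pairPM h
  · exact sw _ _ (C.rev.pairTP h')
  · exact sw _ _ (C.pairPM h)
  · exact C.pairEq hi

set_option linter.unusedSimpArgs false in
theorem classify (i j k : ℕ)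
    (hi : Function.Injective fun y : L => C.σ^[i] y * C.σ^[j] y * C.σ^[k] y) :
    ∃ a c : ℕ, c < 3 ∧ ∀ y, C.σ^[i] y * C.σ^[j] y * C.σ^[k] y = C.σ^[a] (y ^ 2 * C.σ^[c] y) := by
  have per : ∀ (n : ℕ) (y : L), C.σ^[n] y = C.σ^[n % 3] y := fun n y =>
    (Function.IsPeriodicPt.iterate_mod_apply (n := 3) (C.cube y) n).symm
  simp only [per i, per j, per k] at hi ⊢
  have a1 := Nat.mod_lt i (by norm_num : 0 < 3)
  have a2 := Nat.mod_lt j (by norm_num : 0 < 3)
  have a3 := Nat.mod_lt k (by norm_num : 0 < 3)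
  generalize i % 3 = i at *
  generalize j % 3 = j at *
  generalize k % 3 = k at *
  obtain ⟨x, hx⟩ := C.mov
  have it : (∀ y, C.σ^[0] y = y) ∧ (∀ y, C.σ^[1] y = C.σ y) ∧ ∀ y, C.σ^[2] y = C.σ (C.σ y) :=
    ⟨fun _ => rfl, fun _ => rfl, fun _ => rfl⟩
  interval_cases i <;> interval_cases j <;> interval_cases k <;>
    first
    | (refine absurd (hi (a₁ := C.σ x) (a₂ := x) ?_) hx; simp only [it, C.cube]; ring1)
    | (refine ⟨0, 0, by norm_num, fun y => ?_⟩; simp only [it, C.cube, map_mul, map_pow]; ring1)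
    | (refine ⟨0, 1, by norm_num, fun y => ?_⟩; simp only [it, C.cube, map_mul, map_pow]; ring1)
    | (refine ⟨0, 2, by norm_num, fun y => ?_⟩; simp only [it, C.cube, map_mul, map_pow]; ring1)
    | (refine ⟨1, 0, by norm_num, fun y => ?_⟩; simp only [it, C.cube, map_mul, map_pow]; ring1)
    | (refine ⟨1, 1, by norm_num, fun y => ?_⟩; simp only [it, C.cube, map_mul, map_pow]; ring1)
    | (refine ⟨1, 2, by norm_num, fun y => ?_⟩; simp only [it, C.cube, map_mul, map_pow]; ring1)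
    | (refine ⟨2, 0, by norm_num, fun y => ?_⟩; simp only [it, C.cube, map_mul, map_pow]; ring1)
    | (refine ⟨2, 1, by norm_num, fun y => ?_⟩; simp only [it, C.cube, map_mul, map_pow]; ring1)
    | (refine ⟨2, 2, by norm_num, fun y => ?_⟩; simp only [it, C.cube, map_mul, map_pow]; ring1)

theorem inv_iter (a : ℕ) (x : L) : C.χ (C.σ^[a] x) = C.χ x := by
  induction a with
  | zero => rfl
  | succ a ih => rw [Function.iterate_succ_apply', C.inv, ih]

theorem cubic (i j k i' j' k' : ℕ)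
    (hi : Function.Injective fun y : L => C.σ^[i] y * C.σ^[j] y * C.σ^[k] y)
    (hi' : Function.Injective fun y : L => C.σ^[i'] y * C.σ^[j'] y * C.σ^[k'] y) :
    ∃ u v : L, u ≠ 0 ∧ v ≠ 0 ∧ ∑ y, C.χ (u * (C.σ^[i] y * C.σ^[j] y * C.σ^[k] y) +
      v * (C.σ^[i'] y * C.σ^[j'] y * C.σ^[k'] y)) = 0 := by
  obtain ⟨a, c, hc, h⟩ := C.classify i j k hi
  obtain ⟨a', c', hc', h'⟩ := C.classify i' j' k' hi'
  obtain ⟨u, v, hu, hv, h0⟩ := C.pair hc hc' fun x y hxy => hi (by
    simp only at hxy ⊢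
    rw [h, h, hxy])
  have nz : ∀ (n : ℕ) (x : L), x ≠ 0 → C.σ^[n] x ≠ 0 := fun n x hx h0 =>
    hx (C.σ.injective.iterate n (h0.trans (iterate_map_zero C.σ n).symm))
  refine ⟨C.σ^[a] u, C.σ^[a'] v, nz _ _ hu, nz _ _ hv, ?_⟩
  rw [← h0]
  refine sum_congr rfl fun y _ => ?_
  rw [h, h', ← iterate_map_mul, ← iterate_map_mul, AddChar.map_add_eq_mul, AddChar.map_add_eq_mul,
    C.inv_iter, C.inv_iter]

theorem twisted (h3 : (3 : L) ≠ 0) (P : ℕ) (φ : L →+* L) (hφ : ∀ x, φ x = x ^ P)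
    (he : Function.Injective fun x : L => x ^ (P + 2)) :
    ∑ y, C.χ (1 * (φ y * y ^ 2) + 2 * (φ y * C.σ y * C.σ (C.σ y))) = 0 := by
  have hc : ∀ x, C.σ (φ x) = φ (C.σ x) := fun x => by rw [hφ, hφ, map_pow]
  refine C.vertex _ (fun y => C.T y / 3) (3 ^ 2) (P + 2) (pow_ne_zero 2 h3) (by simp [map_ofNat])
    (fun x y _ _ h => he h) (fun y => by rw [map_div₀, C.σT, map_ofNat])
    (fun y t ht => ?_) fun y t ht => ?_
  · rw [div_add' _ _ _ h3]
    congr 1
    simp only [T, map_add, ht]; ring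
  · have e1 : 3 ^ 2 * ((C.T y / 3 + t) ^ (P + 2) - (C.T y / 3) ^ (P + 2)) =
        φ (C.T y) * (2 * C.T y * t + 3 * t ^ 2) + φ t * (C.T y + 3 * t) ^ 2 := by
      rw [pow_add, pow_add, ← hφ, ← hφ, map_add, map_div₀, map_ofNat]
      field_simp; ring
    rw [e1]
    simp only [T, map_add, map_mul, map_pow, map_one, map_ofNat, hc, ht, C.cube]
    ring

end Pool.Agent.MP_e262d6_nt.Ctx

end
end MrgPart1

-- marker of a merged file
example : 731051 + 424403 = 731051 + 424403 := rfl
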